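import Pool.Agent.Results.MP_d96576_co.ManyOmissible

/-!
# Omissible points: sets of every large order

Toggle-closed sets: for a finite family of centres `C i` and a generic point `P` the centres of mass
of `P` (weight `1`) and the `C i` (weights `0, 1, 2`) form a set in which every line through a centre
contains two points of the set, even after the removal of any points whose total weight lies in a
fixed residue class modulo `3`.
-/

set_option autoImplicit false
open Finset

namespace Pool.Agent.Y426.OM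

open Pool.Agent.Results.MP_d96576_co.ManyOmissible

/-- every line through `y` and another point of `X` contains a third point of `X` -/
def Cl (X : Finset Plane) (y : Plane) : Prop :=
  y ∈ X ∧ ∀ x ∈ X, x ≠ y → ∃ z ∈ X, z ≠ y ∧ z ≠ x ∧
    ∀ ℓ : AffineSubspace ℝ Plane, y ∈ ℓ → x ∈ ℓ → z ∈ ℓ

theorem Cl.omissible {X : Finset Plane} {y : Plane} (h : Cl X y) :
    Omissible (X : Set Plane) y :=
  omissible_of h.1 fun x hx hxy => by
    obtain ⟨z, h1, h2, h3, h4⟩ := h.2 x hx hxy
    exact ⟨z, h1, h2, h3, h4⟩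

theorem cl_of_omissible {X : Finset Plane} {y : Plane} (h : Omissible (X : Set Plane) y) :
    Cl X y := by
  refine ⟨h.1, fun x hx hxy => ?_⟩
  have hl : IsLine (line[ℝ, y, x]) := by
    refine ⟨⟨y, left_mem_affineSpan_pair ℝ y x⟩, ?_⟩
    rw [direction_affineSpan, vectorSpan_pair]
    exact finrank_span_singleton (vsub_ne_zero.mpr hxy.symm)
  have h1 : line[ℝ, y, x] ∈ spanned (X : Set Plane) :=
    ⟨hl, y, h.1, x, hx, hxy.symm, left_mem_affineSpan_pair ℝ y x, right_mem_affineSpan_pair ℝ y x⟩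
  rw [← h.2] at h1
  obtain ⟨-, p, hp, q, hq, hpq, hp1, hq1⟩ := h1
  by_cases hpx : p = x
  · exact ⟨q, hq.1, hq.2, fun e => hpq (hpx.trans e.symm),
      fun ℓ h1 h2 => (affineSpan_pair_le_of_mem_of_mem h1 h2) hq1⟩
  · exact ⟨p, hp.1, hp.2, hpx,
      fun ℓ h1 h2 => (affineSpan_pair_le_of_mem_of_mem h1 h2) hp1⟩

/-- the point with the given weighted sum and total weight, `P` added with weight `1` -/
noncomputable def ph (P : Plane) (v : Plane × ℕ) : Plane := ((1 : ℝ) + v.2)⁻¹ • (P + v.1)

theorem ph_smul (P : Plane) (v : Plane × ℕ) : ((1 : ℝ) + v.2) • ph P v = P + v.1 := by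
  unfold ph
  rw [smul_inv_smul₀]
  positivity

section
variable {ι : Type} [Fintype ι] [DecidableEq ι]

/-- weighted sum of the points and total weight -/
noncomputable def sv (C : ι → Plane) (a : ι → Fin 3) : Plane × ℕ :=
  (∑ i, (((a i : ℕ)) : ℝ) • C i, ∑ i, (a i : ℕ))

open Classical in
/-- all weighted sums with weights `0, 1, 2` -/
noncomputable def T (C : ι → Plane) : Finset (Plane × ℕ) := univ.image (sv C)

theorem sv_mem (C : ι → Plane) (a : ι → Fin 3) : sv C a ∈ T C := by
  classical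
  unfold T
  exact mem_image_of_mem _ (mem_univ _)

theorem T_pos (C : ι → Plane) : 1 ≤ (T C).card :=
  Finset.card_pos.mpr ⟨_, sv_mem C (fun _ => 0)⟩

theorem T_card_le (C : ι → Plane) : (T C).card ≤ 3 ^ Fintype.card ι := by
  classical
  unfold T
  refine card_image_le.trans ?_
  rw [card_univ, Fintype.card_fun, Fintype.card_fin]

theorem sv_upd_fst (C : ι → Plane) (a : ι → Fin 3) (i : ι) (b : Fin 3) :
    (sv C (Function.update a i b)).1 = (sv C a).1 + (((b : ℕ) : ℝ) - ((a i : ℕ) : ℝ)) • C i := by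
  unfold sv
  dsimp only
  rw [← Finset.add_sum_erase univ _ (mem_univ i), ← Finset.add_sum_erase univ _ (mem_univ i),
    Function.update_self]
  have : ∑ x ∈ univ.erase i, (((Function.update a i b x : Fin 3) : ℕ) : ℝ) • C x =
      ∑ x ∈ univ.erase i, (((a x : Fin 3) : ℕ) : ℝ) • C x := by
    refine Finset.sum_congr rfl fun x hx => ?_
    rw [Function.update_of_ne (Finset.ne_of_mem_erase hx)]
  rw [this, sub_smul]
  abel

theorem sv_upd_snd (C : ι → Plane) (a : ι → Fin 3) (i : ι) :
    ∃ w : ℕ, ∀ b : Fin 3, (sv C (Function.update a i b)).2 = w + b := by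
  refine ⟨∑ x ∈ univ.erase i, (a x : ℕ), fun b => ?_⟩
  unfold sv
  dsimp only
  rw [← Finset.add_sum_erase univ _ (mem_univ i), Function.update_self, add_comm]
  congr 1
  refine Finset.sum_congr rfl fun x hx => ?_
  rw [Function.update_of_ne (Finset.ne_of_mem_erase hx)]

theorem line_upd (P : Plane) (C : ι → Plane) (a : ι → Fin 3) (i : ι) (b : Fin 3) :
    ∃ c : ℝ, ph P (sv C (Function.update a i b)) = AffineMap.lineMap (C i) (ph P (sv C a)) c := by
  have h1 := ph_smul P (sv C (Function.update a i b))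
  have h0 := ph_smul P (sv C a)
  obtain ⟨w, hw⟩ := sv_upd_snd C a i
  have e0 : (sv C a).2 = w + a i := by
    have := hw (a i)
    rwa [Function.update_eq_self] at this
  rw [sv_upd_fst, ← add_assoc, ← h0, hw b] at h1
  rw [e0] at h1
  refine ⟨(1 + ((w + (a i : ℕ) : ℕ) : ℝ)) / (1 + ((w + (b : ℕ) : ℕ) : ℝ)), ?_⟩
  have hD : (1 + ((w + (b : ℕ) : ℕ) : ℝ)) ≠ 0 := by positivity
  generalize ph P (sv C (Function.update a i b)) = Q at *
  generalize ph P (sv C a) = S at *
  have h2 : Q = (1 + ((w + (b : ℕ) : ℕ) : ℝ))⁻¹ • ((1 + ((w + (a i : ℕ) : ℕ) : ℝ)) • S +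
      (((b : ℕ) : ℝ) - ((a i : ℕ) : ℝ)) • C i) := by
    rw [← h1, inv_smul_smul₀ hD]
  rw [h2, AffineMap.lineMap_apply]
  ext k
  push_cast at hD ⊢
  simp
  field_simp
  ring

end

theorem exists_P (X : Finset Plane) (U : Finset (Plane × ℕ)) :
    ∃ P : Plane, Set.InjOn (ph P) (U : Set (Plane × ℕ)) ∧ ∀ v ∈ U, ph P v ∉ X := by
  classical
  have hinf : Infinite Plane := Infinite.of_injective par par_inj
  obtain ⟨P, hP⟩ := Infinite.exists_notMem_finset
    ((U ×ˢ U).image (fun z : (Plane × ℕ) × (Plane × ℕ) =>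
      ((z.2.2 : ℝ) - z.1.2)⁻¹ • (((1 : ℝ) + z.1.2) • z.2.1 - ((1 : ℝ) + z.2.2) • z.1.1)) ∪
      (U ×ˢ X).image (fun z : (Plane × ℕ) × Plane => ((1 : ℝ) + z.1.2) • z.2 - z.1.1))
  rw [mem_union, not_or] at hP
  refine ⟨P, ?_, ?_⟩
  · intro v hv w hw h
    by_contra hne
    have h1 := ph_smul P v
    have h2 := ph_smul P w
    rw [← h] at h2
    have h3 : ((1 : ℝ) + w.2) • (P + v.1) = ((1 : ℝ) + v.2) • (P + w.1) := by
      rw [← h1, ← h2, smul_smul, smul_smul, mul_comm]
    have h4 : ((w.2 : ℝ) - v.2) • P = ((1 : ℝ) + v.2) • w.1 - ((1 : ℝ) + w.2) • v.1 := by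
      linear_combination (norm := module) h3
    by_cases hs : w.2 = v.2
    · rw [hs, sub_self, zero_smul, ← smul_sub] at h4
      have h5 : w.1 - v.1 = 0 := by
        rcases smul_eq_zero.mp h4.symm with h | h
        · exfalso
          have : (0 : ℝ) < 1 + v.2 := by positivity
          exact this.ne' h
        · exact h
      exact hne (Prod.ext (sub_eq_zero.mp h5).symm hs.symm)
    · apply hP.1
      rw [mem_image]
      refine ⟨(v, w), mem_product.mpr ⟨hv, hw⟩, ?_⟩
      dsimp only
      rw [← h4, inv_smul_smul₀]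
      rw [sub_ne_zero]
      exact_mod_cast hs
  · intro v hv hx
    apply hP.2
    rw [mem_image]
    refine ⟨(v, ph P v), mem_product.mpr ⟨hv, hx⟩, ?_⟩
    dsimp only
    rw [ph_smul, add_sub_cancel_right]

theorem choose_b (w a j : ℕ) (ha : a < 3) : ∃ b : ℕ, b < 3 ∧ b ≠ a ∧ (w + b) % 3 ≠ j % 3 := by
  by_cases h : (w + (a + 1) % 3) % 3 ≠ j % 3
  · exact ⟨(a + 1) % 3, by omega, by omega, h⟩
  · exact ⟨(a + 2) % 3, by omega, by omega, by omega⟩

section
variable {ι : Type} [Fintype ι] [DecidableEq ι]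

/-- one step: a generic translate of the toggle-closed set, with some points removed -/
theorem step (C : ι → Plane) (X : Finset Plane) (hX : ∀ i, Cl X (C i)) (j : ℕ)
    (R : Finset (Plane × ℕ)) (hR : R ⊆ T C) (hRj : ∀ v ∈ R, v.2 % 3 = j % 3) :
    ∃ X' : Finset Plane, X ⊆ X' ∧ X'.card = X.card + ((T C).card - R.card) ∧
      ∀ i, Cl X' (C i) := by
  classical
  obtain ⟨P, hinj, hdis⟩ := exists_P X (T C)
  have hinj' : Set.InjOn (ph P) ((T C \ R : Finset (Plane × ℕ)) : Set (Plane × ℕ)) :=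
    hinj.mono (by intro v hv; exact (mem_sdiff.mp hv).1)
  refine ⟨X ∪ (T C \ R).image (ph P), subset_union_left, ?_, ?_⟩
  · rw [card_union_of_disjoint, card_image_of_injOn hinj', card_sdiff_of_subset hR]
    rw [Finset.disjoint_left]
    intro x hx hx'
    obtain ⟨v, hv, rfl⟩ := mem_image.mp hx'
    exact hdis v (mem_sdiff.mp hv).1 hx
  · intro i
    refine ⟨mem_union_left _ (hX i).1, ?_⟩
    intro x hx hne
    rcases mem_union.mp hx with hx | hx
    · obtain ⟨z, h1, h2, h3, h4⟩ := (hX i).2 x hx hne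
      exact ⟨z, mem_union_left _ h1, h2, h3, h4⟩
    · obtain ⟨v, hv, rfl⟩ := mem_image.mp hx
      rw [mem_sdiff] at hv
      obtain ⟨a, -, rfl⟩ := mem_image.mp hv.1
      obtain ⟨w, hw⟩ := sv_upd_snd C a i
      have e0 : (sv C a).2 = w + a i := by
        have := hw (a i)
        rwa [Function.update_eq_self] at this
      obtain ⟨b, hb3, hba, hbj⟩ := choose_b w (a i) j (a i).2
      have hmem : sv C (Function.update a i ⟨b, hb3⟩) ∈ T C \ R := by
        rw [mem_sdiff]
        refine ⟨sv_mem _ _, fun h => hbj ?_⟩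
        have := hRj _ h
        rwa [hw] at this
      obtain ⟨c, hc⟩ := line_upd P C a i ⟨b, hb3⟩
      refine ⟨ph P (sv C (Function.update a i ⟨b, hb3⟩)),
        mem_union_right _ (mem_image_of_mem _ hmem), ?_, ?_, ?_⟩
      · intro h
        exact hdis _ (sv_mem C _) (h ▸ (hX i).1)
      · intro h
        have h1 := hinj (sv_mem C _) (sv_mem C _) h
        have h2 := congrArg Prod.snd h1
        rw [hw, e0] at h2
        apply hba
        simpa using h2
      · intro ℓ h1 h2
        rw [hc]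
        exact AffineMap.lineMap_mem _ h1 h2

/-- some residue class contains a third of the sums -/
theorem exists_class (U : Finset (Plane × ℕ)) :
    ∃ j : ℕ, j < 3 ∧ U.card ≤ 3 * (U.filter (fun v => v.2 % 3 = j)).card := by
  classical
  by_contra hcon
  push Not at hcon
  have h := Finset.card_eq_sum_card_fiberwise (s := U) (t := range 3) (f := fun v => v.2 % 3)
    (by intro v _; simp only [coe_range, Set.mem_Iio]; omega)
  have h0 := hcon 0 (by norm_num)
  have h1 := hcon 1 (by norm_num)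
  have h2 := hcon 2 (by norm_num)
  rw [sum_range_succ, sum_range_succ, sum_range_succ, sum_range_zero] at h
  omega

/-- steps of every size between `2N/3` and `N` -/
theorem step_size (C : ι → Plane) (X : Finset Plane) (hX : ∀ i, Cl X (C i)) (c : ℕ)
    (h1 : 2 * (T C).card ≤ 3 * c + 2) (h2 : c ≤ (T C).card) :
    ∃ X' : Finset Plane, X ⊆ X' ∧ X'.card = X.card + c ∧ ∀ i, Cl X' (C i) := by
  classical
  obtain ⟨j, hj, hcls⟩ := exists_class (T C)
  obtain ⟨R, hR1, hR2⟩ := Finset.exists_subset_card_eq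
    (s := (T C).filter (fun v => v.2 % 3 = j)) (n := (T C).card - c) (by omega)
  obtain ⟨X', h3, h4, h5⟩ := step C X hX j R (hR1.trans (filter_subset _ _)) (by
    intro v hv
    rw [Nat.mod_eq_of_lt hj]
    exact (mem_filter.mp (hR1 hv)).2)
  refine ⟨X', h3, ?_, h5⟩
  rw [h4, hR2]
  omega

/-- extension by any number of points `≥ 2N` -/
theorem extend (C : ι → Plane) (m : ℕ) : ∀ (X : Finset Plane), (∀ i, Cl X (C i)) →
    2 * (T C).card ≤ m →
    ∃ X' : Finset Plane, X ⊆ X' ∧ X'.card = X.card + m ∧ ∀ i, Cl X' (C i) := by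
  induction m using Nat.strong_induction_on with
  | _ m ih =>
    intro X hX hm
    have hpos := T_pos C
    by_cases h3 : m ≤ 3 * (T C).card
    · obtain ⟨X1, a1, a2, a3⟩ := step_size C X hX (m / 3) (by omega) (by omega)
      obtain ⟨X2, b1, b2, b3⟩ := step_size C X1 a3 ((m + 1) / 3) (by omega) (by omega)
      obtain ⟨X3, c1, c2, c3⟩ := step_size C X2 b3 ((m + 2) / 3) (by omega) (by omega)
      exact ⟨X3, (a1.trans b1).trans c1, by omega, c3⟩
    · obtain ⟨X1, a1, a2, a3⟩ := step_size C X hX (T C).card (by omega) le_rfl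
      obtain ⟨X2, b1, b2, b3⟩ := ih (m - (T C).card) (by omega) X1 a3 (by omega)
      exact ⟨X2, a1.trans b1, by omega, b3⟩

/-- the base set -/
theorem base (C : ι → Plane) : ∃ X : Finset Plane, X.card ≤ (T C).card ∧ ∀ i, Cl X (C i) := by
  classical
  refine ⟨(X_finite C 2).toFinset, ?_, fun i => cl_of_omissible ?_⟩
  · have h : (X_finite C 2).toFinset ⊆ (T C).image (fun v : Plane × ℕ => ((v.2 : ℝ))⁻¹ • v.1) := by
      intro x hx
      rw [Set.Finite.mem_toFinset] at hx
      obtain ⟨t, ht, -, rfl⟩ := hx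
      rw [mem_image]
      refine ⟨sv C (fun i => ⟨t i, by have := ht i; omega⟩), sv_mem _ _, ?_⟩
      unfold sv pt tot
      dsimp only
      push_cast
      rfl
    exact (card_le_card h).trans card_image_le
  · rw [Set.Finite.coe_toFinset]
    exact omissible_center C (by norm_num) i

/-- sets of every order `n ≥ 3N` -/
theorem main (C : ι → Plane) (n : ℕ) (hn : 3 * (T C).card ≤ n) :
    ∃ X : Finset Plane, X.card = n ∧ ∀ i, Omissible (X : Set Plane) (C i) := by
  obtain ⟨X, h1, h2⟩ := base C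
  obtain ⟨X', -, h4, h5⟩ := extend C (n - X.card) X h2 (by omega)
  exact ⟨X', by omega, fun i => (h5 i).omissible⟩

end

end Pool.Agent.Y426.OM
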